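import Pool.Agent.MP_a2d820_lc.h55.Stage

set_option autoImplicit false

namespace Pool.Agent.Results.MP_a2d820_lc.HeuristicaInfinitePH

open Pool.Agent.MP_a2d820_lc.h69 Pool.Agent.MP_a2d820_lc.h55

/-- There is an oracle relative to which every language of the polynomial hierarchy has an
errorless heuristic scheme on every samplable ensemble, the hierarchy is infinite, and some
language in `PSPACE` lies outside all its levels. -/
theorem result : ∃ A : List Bool → Bool,
    (∀ k, ∀ L ∈ RelSigma A k, ∀ g ∈ RelFP A, ∀ p, RelAvgP A L g p) ∧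
    (∀ k, ∃ L ∈ RelSigma A (k + 1), L ∉ RelSigma A k) ∧
    ∃ L ∈ RelPSPACE A, ∀ k, L ∉ RelSigma A k :=
  exists_oracle

end Pool.Agent.Results.MP_a2d820_lc.HeuristicaInfinitePH
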