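import Pool.Agent.MP_a2d820_lc.h18.Full

open Pool.Agent.MP_a2d820_lc

namespace Pool.Agent.Results.MP_a2d820_lc.LeafLevelsAll

/-- Level `j / 2` of the hierarchy with half levels `F`: level `k - 1/2` is `F k`, and level `k` is
the Boolean closure of `F k`. -/
def level {α : Type} [BooleanAlgebra α] (F : ℕ → Set α) (j : ℕ) : Set α :=
  if j % 2 = 1 then F ((j + 1) / 2) else BooleanSubalgebra.closure (F (j / 2))

/-- A regular language lies in level `j / 2 ≤ 7 / 2` of the alternation hierarchy of first-order
logic on words if and only if its leaf-language class lies in level `j / 2` of the polynomial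
hierarchy relative to every oracle. -/
theorem result {A : Type} [Fintype A] [DecidableEq A] (L : Language A) (hL : L.IsRegular)
    (j : ℕ) (hj : j ≤ 7) :
    L ∈ level (fun k => {K | h18.SigmaDef k K}) j ↔
      ∀ O : List Bool → Bool, h18.Leaf L O ⊆ level (h69.RelSigma O) j := by
  unfold level
  split_ifs with h2
  · refine ⟨h18.leaf_subset, fun h => ?_⟩
    by_contra hn
    obtain ⟨O, hO⟩ := h18.exists_oracle (h18.hard_le_four hL (by omega) hn)
    exact hO (h O)
  · refine ⟨h18.leaf_closure, fun h => ?_⟩
    by_contra hn
    obtain ⟨O, hO⟩ := (h18.hardB_le_three hL (by omega) hn).oracle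
    exact hO (h O)

end Pool.Agent.Results.MP_a2d820_lc.LeafLevelsAll
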