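import Pool.Agent.MP_a2d820_lc.h22.All2

set_option autoImplicit false

namespace Pool.Agent.Results.MP_a2d820_lc.SeparationInfinitePH

open Pool.Agent.MP_a2d820_lc.h69 Pool.Agent.MP_a2d820_lc.h22

/-- The complements of the languages of level `Σ_k` relative to `A`. -/
def RelPi (A : List Bool → Bool) (k : ℕ) : Set (List Bool → Bool) :=
  {L | (fun x => !L x) ∈ RelSigma A k}

/-- The deterministic levels of the polynomial hierarchy relative to `A`. -/
def RelDelta (A : List Bool → Bool) : ℕ → Set (List Bool → Bool)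
  | 0 => RelP A
  | k + 1 => {L | ∃ B ∈ RelSigma A k, L ∈ RelP (join A B)}

/-- The levels with one round of parallel queries. -/
def RelTheta (A : List Bool → Bool) : ℕ → Set (List Bool → Bool)
  | 0 => RelP A
  | k + 1 => {L | ∃ C ∈ RelSigma A k, L ∈ RelTT C}

/-- There is an oracle relative to which, at every level, disjoint `Σ_k` languages are separated by
a `Θ_k` language and `Σ_k ∩ Π_k = Δ_k = Θ_k`, the polynomial hierarchy is infinite, and some
language in `PSPACE` lies outside all its levels. -/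
theorem result : ∃ A : List Bool → Bool,
    (∀ k, ∀ L ∈ RelSigma A (k + 1), ∀ L' ∈ RelSigma A (k + 1),
      (∀ x, ¬(L x = true ∧ L' x = true)) → ∃ S ∈ RelTheta A (k + 1),
        ∀ x, (L x = true → S x = true) ∧ (L' x = true → S x = false)) ∧
    (∀ k, RelSigma A (k + 1) ∩ RelPi A (k + 1) = RelDelta A (k + 1) ∧
      RelDelta A (k + 1) = RelTheta A (k + 1)) ∧
    (∀ k, ∃ L ∈ RelSigma A (k + 1), L ∉ RelSigma A k) ∧
    ∃ L ∈ RelPSPACE A, ∀ k, L ∉ RelSigma A k := by
  obtain ⟨c, hc⟩ := Pool.Agent.MP_a2d820_lc.h22v.diag_all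
  obtain ⟨A, h1, h2⟩ := Pool.Agent.MP_a2d820_lc.h22v.final hc
  refine ⟨A, fun k L a L' a' h => ?_, h2⟩
  obtain ⟨C, b1, S, b2, b3⟩ := h1 k L a L' a' h
  exact ⟨S, ⟨C, b1, b2⟩, b3⟩

end Pool.Agent.Results.MP_a2d820_lc.SeparationInfinitePH
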