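import Pool.Agent.MP_a2d820_lc.h31w.AU

set_option autoImplicit false

namespace Pool.Agent.Results.MP_a2d820_lc.UnambiguousInfinitePH

open Pool.Agent.MP_a2d820_lc.h69 Pool.Agent.MP_a2d820_lc.h22

/-- The levels of the unambiguous alternating hierarchy relative to `A`: a language of level
`k + 1` is given by a polynomially bounded existential quantifier over the complement of a
language of level `k`, with at most one witness on every input. -/
def RelAU (A : List Bool → Bool) : ℕ → Set (List Bool → Bool)
  | 0 => RelP A
  | k + 1 => {L | ∃ p : Polynomial ℕ, ∃ C ∈ RelAU A k,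
      (∀ x, L x = true ↔
        ∃ w : List Bool, w.length ≤ p.eval x.length ∧ C (N487b59b3.delimit x ++ w) = false) ∧
      ∀ x w w' : List Bool, w.length ≤ p.eval x.length → w'.length ≤ p.eval x.length →
        C (N487b59b3.delimit x ++ w) = false → C (N487b59b3.delimit x ++ w') = false → w = w'}

/-- There is an oracle relative to which `NP = UP`, every level of the polynomial hierarchy equals
the same level of the unambiguous alternating hierarchy, the polynomial hierarchy is infinite, and
some language in `PSPACE` lies outside all its levels. -/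
theorem result : ∃ A : List Bool → Bool, RelNP A = RelUP A ∧
    (∀ k, RelSigma A k = RelAU A k) ∧
    (∀ k, ∃ L ∈ RelSigma A (k + 1), L ∉ RelSigma A k) ∧
    ∃ L ∈ RelPSPACE A, ∀ k, L ∉ RelSigma A k := by
  obtain ⟨c, hc⟩ := Pool.Agent.MP_a2d820_lc.h31w.diag_all
  obtain ⟨A, h1, h2, h3⟩ := Pool.Agent.MP_a2d820_lc.h31w.final_au hc
  refine ⟨A, h1, fun k => ?_, h3⟩
  induction k with
  | zero => rfl
  | succ k ih =>
    rw [RelAU, ← ih]
    refine Set.Subset.antisymm (h2 k) fun L ⟨p, C, hC, h, _⟩ =>
      ⟨C, hC, p, _, one_query (Q := fun d => true :: d) (by fun_prop) true _, fun x => ?_⟩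
    simp only [h x, join, Bool.true_xor, Bool.not_eq_true']

end Pool.Agent.Results.MP_a2d820_lc.UnambiguousInfinitePH
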